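import Mathlib

namespace Pool.Agent.Results.MP_a52dbe_an.NoBlid

open Filter Topology Set Metric unitInterval

lemma maxi {X : Type} [NormedAddCommGroup X] [CompleteSpace X] {R : X → X → Prop} {r : ℝ}
    (h0 : ∀ x y z, R x y → R y z → R x z) (hc : ∀ x, IsClosed {y | R x y})
    (h1 : ∀ x y, R x y → R y y ∧ ‖y‖ ≤ r ∧ ‖y - x‖ ≤ 2 * (‖y‖ - ‖x‖)) (a : X) (ha : R a a) :
    ∃ m, R a m ∧ ∀ y, R m y → y = m := by
  have key (x : X) (n : ℕ) : ∃ y, R x x → R x y ∧ ∀ z, R x z → ‖z‖ ≤ ‖y‖ + (1 / 2) ^ n := by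
    by_cases hx : R x x
    · have hb : BddAbove (norm '' {y | R x y}) := ⟨r, by rintro _ ⟨y, hy, rfl⟩; exact (h1 x y hy).2.1⟩
      obtain ⟨_, ⟨y, hy, rfl⟩, h⟩ := exists_lt_of_lt_csSup (s := norm '' {y | R x y}) ⟨_, x, hx, rfl⟩
        (sub_lt_self _ (by positivity : (0 : ℝ) < (1 / 2) ^ n))
      exact ⟨y, fun _ => ⟨hy, fun z hz => by linarith [le_csSup hb ⟨z, hz, rfl⟩]⟩⟩
    · exact ⟨x, fun h => absurd h hx⟩
  choose f hf using key
  let x : ℕ → X := fun n => n.rec a fun n y => f y n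
  have hx (n : ℕ) : R (x n) (x n) := by
    induction n with
    | zero => exact ha
    | succ n ih => exact (h1 _ _ (hf _ n ih).1).1
  have hm (n k : ℕ) (h : n ≤ k) : R (x n) (x k) := by
    induction k, h using Nat.le_induction with
    | base => exact hx n
    | succ k _ ih => exact h0 _ _ _ ih (hf _ k (hx k)).1
  have hd (n : ℕ) (z : X) (hz : R (x (n + 1)) z) : dist z (x (n + 1)) ≤ 2 * (1 / 2) ^ n := by
    have : ‖z‖ ≤ ‖x (n + 1)‖ + (1 / 2) ^ n := (hf _ n (hx n)).2 z (h0 _ _ _ (hm n _ n.le_succ) hz)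
    rw [dist_eq_norm]
    exact (h1 _ _ hz).2.2.trans (by linarith)
  have ht : Tendsto (fun n : ℕ => 2 * (1 / 2 : ℝ) ^ n) atTop (𝓝 0) := by
    simpa using (tendsto_pow_atTop_nhds_zero_of_lt_one (r := (1 / 2 : ℝ)) (by norm_num)
      (by norm_num)).const_mul 2
  obtain ⟨m, hm'⟩ := cauchySeq_tendsto_of_complete (cauchySeq_of_le_tendsto_0'
    (s := fun n => x (n + 1)) _ (fun n k h => by
      rw [dist_comm]; exact hd n _ (hm _ _ (Nat.succ_le_succ h))) ht)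
  have h2 (n : ℕ) : R (x n) m := (hc _).mem_of_tendsto hm'
    ((eventually_ge_atTop n).mono fun k hk => hm _ _ (hk.trans k.le_succ))
  refine ⟨m, h2 0, fun y hy => tendsto_nhds_unique ?_ hm'⟩
  exact tendsto_iff_dist_tendsto_zero.2 (squeeze_zero (fun _ => dist_nonneg)
    (fun n => by rw [dist_comm]; exact hd n y (h0 _ _ _ (h2 (n + 1)) hy)) ht)

lemma rough (m : C(I, ℝ)) {δ : ℝ} (hδ : 0 < δ) :
    ∃ h : C(I, ℝ), ‖h‖ ≤ δ ∧ ‖m‖ + δ / 2 ≤ ‖m + h‖ ∧ ‖m‖ + δ / 2 ≤ ‖m + -h‖ := by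
  obtain ⟨a, -, ha⟩ := isCompact_univ.exists_isMaxOn univ_nonempty
    (f := fun t => |m t|) (by fun_prop)
  have h1 : ‖m‖ ≤ |m a| := (m.norm_le (abs_nonneg _)).2 fun t => ha (mem_univ t)
  obtain ⟨b, h2, hb⟩ := (((m.continuous.tendsto a).eventually (ball_mem_nhds _ (half_pos hδ))).filter_mono
    (nhdsWithin_le_nhds (s := {a}ᶜ))).and self_mem_nhdsWithin |>.exists
  have h3 : 0 < dist a b := dist_pos.2 (Ne.symm hb)
  rw [Real.dist_eq] at h2
  let h : C(I, ℝ) := ⟨fun t => δ * ((dist t b - dist t a) / dist a b), by fun_prop⟩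
  have e1 : h a = δ := by simp [h, h3.ne']
  have e2 : h b = -δ := by simp [h, dist_comm b a, h3.ne']
  have a1 := abs_le.1 ((m + h).norm_coe_le_norm a)
  have a2 := abs_le.1 ((m + h).norm_coe_le_norm b)
  have a3 := abs_le.1 ((m + -h).norm_coe_le_norm a)
  have a4 := abs_le.1 ((m + -h).norm_coe_le_norm b)
  simp only [ContinuousMap.add_apply, ContinuousMap.neg_apply, e1, e2] at a1 a2 a3 a4
  have a5 := abs_lt.1 h2
  refine ⟨h, (h.norm_le hδ.le).2 fun t => ?_, ?_⟩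
  · rw [Real.norm_eq_abs, show h t = δ * ((dist t b - dist t a) / dist a b) from rfl, abs_mul,
      abs_of_pos hδ, abs_div, abs_of_pos h3]
    refine mul_le_of_le_one_right hδ.le ((div_le_one h3).2 ?_)
    rw [dist_comm t b, dist_comm t a, dist_comm a b]
    exact abs_dist_sub_le b a t
  · rcases abs_cases (m a) with e | e <;> constructor <;> linarith

lemma main {r : ℝ} (hr : 0 < r) {φ : C(I, ℝ) → ℝ} (hφ : Differentiable ℝ φ) (h0 : 0 < φ 0)
    (h1 : ∀ x, ‖x‖ = r → φ x = 0) : False := by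
  have hc := hφ.continuous
  set ε := φ 0 / (2 * r) with hε
  have hε0 : 0 < ε := by positivity
  obtain ⟨m, ⟨m1, -, m3⟩, hm⟩ := maxi (r := r) (R := fun x y : C(I, ℝ) => ‖y‖ ≤ r ∧
      ‖y - x‖ ≤ 2 * (‖y‖ - ‖x‖) ∧ φ x - ε * (‖y‖ - ‖x‖) ≤ φ y)
    (fun x y z a b => ⟨b.1, by linarith [a.2.1, b.2.1, norm_sub_le_norm_sub_add_norm_sub z y x],
      by linarith [a.2.2, b.2.2]⟩)
    (fun x => by
      refine IsClosed.and (isClosed_le ?_ ?_) (IsClosed.and (isClosed_le ?_ ?_) (isClosed_le ?_ hc))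
      all_goals fun_prop)
    (fun x y h => ⟨⟨h.1, by simp, by simp⟩, h.1, h.2.1⟩) 0 ⟨by simp [hr.le], by simp, by simp⟩
  have h2 : ‖m‖ < r := m1.lt_of_ne fun e => by
    rw [h1 m e, e, norm_zero, sub_zero, hε, div_mul_eq_mul_div, mul_div_mul_right _ _ hr.ne'] at m3
    linarith
  obtain ⟨η, hη, h3⟩ := Metric.eventually_nhds_iff.1
    ((hasFDerivAt_iff_isLittleO_nhds_zero.1 (hφ m).hasFDerivAt).def (half_pos hε0))
  have hδ : 0 < min (η / 2) (r - ‖m‖) := lt_min (half_pos hη) (sub_pos.2 h2)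
  have d1 := min_le_left (η / 2) (r - ‖m‖)
  have d2 := min_le_right (η / 2) (r - ‖m‖)
  obtain ⟨h, a1, a2⟩ : ∃ h : C(I, ℝ), 0 ≤ fderiv ℝ φ m h ∧ ‖h‖ ≤ min (η / 2) (r - ‖m‖) ∧
      ‖m‖ + min (η / 2) (r - ‖m‖) / 2 ≤ ‖m + h‖ := by
    obtain ⟨h, a1, a2, a3⟩ := rough m hδ
    rcases le_total 0 (fderiv ℝ φ m h) with e | e
    · exact ⟨h, e, a1, a2⟩
    · exact ⟨-h, by simpa using e, by simpa using a1, a3⟩
  have h4 := (abs_le.1 (h3 (y := h) (by rw [dist_zero_right]; linarith [a2.1]))).1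
  have h5 := hm (m + h) ⟨by linarith [norm_add_le m h, a2.1], by
    rw [add_sub_cancel_left]; linarith [a2.1, a2.2], by nlinarith [a2.1, a2.2]⟩
  rw [h5] at a2
  linarith [a2.2]

theorem result (r : ℝ) (hr : 0 < r) : ∃ U : Set C(I, ℝ), IsOpen U ∧ sphere 0 r ⊆ U ∧
    ¬ ∃ H : C(I, ℝ) → C(I, ℝ), Differentiable ℝ H ∧ (∀ x, H x ∈ U) ∧ ∀ x ∈ sphere 0 r, H x = x := by
  refine ⟨{0}ᶜ, isOpen_compl_singleton, fun x hx e => ?_, fun ⟨H, h1, h2, h3⟩ => ?_⟩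
  · simp [mem_singleton_iff.1 e, hr.ne] at hx
  · obtain ⟨t, ht⟩ : ∃ t, H 0 t ≠ 0 := by
      by_contra h
      push Not at h
      exact h2 0 (ContinuousMap.ext h)
    refine main hr (φ := fun x => H 0 t * ContinuousMap.evalCLM ℝ t (H x - x))
      (((ContinuousMap.evalCLM ℝ t).differentiable.comp (h1.sub differentiable_id)).const_mul _)
      (by simpa using ht) fun x hx => by simp [h3 x (by simpa using hx)]

end Pool.Agent.Results.MP_a52dbe_an.NoBlid
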